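import Pool.Agent.helper82.T6.SpecL

set_option autoImplicit false

/-!
# T6, block L: row P4
-/

namespace Pool.Agent.T6

open Finset Pool.Agent.helper3.FT

/-- the factor of one block -/
noncomputable def P4_G (J m : ℕ) : ℝ := 1 / (m : ℝ) * (if m.Prime then (4 / J : ℝ) ^ (7 / 8 : ℝ) else 1)

theorem P4_G_nonneg (J m : ℕ) : 0 ≤ P4_G J m := by
  unfold P4_G
  refine mul_nonneg (by positivity) ?_
  split_ifs
  · positivity
  · exact zero_le_one

theorem P4_dvd {J q p : ℕ} (hp : p.Prime) (h : p ∣ bp J q) : p ∣ q ∧ Nat.log 2 p = J := by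
  unfold bp at h
  obtain ⟨r, hr, hpr⟩ := (Prime.dvd_finsetProd_iff hp.prime _).1 h
  rw [mem_filter] at hr
  have h2 := hp.dvd_of_dvd_pow hpr
  have hr' := Nat.prime_of_mem_primeFactors hr.1
  have h3 : p = r := (Nat.prime_dvd_prime_iff_eq hp hr').1 h2
  subst h3
  exact ⟨Nat.dvd_of_mem_primeFactors hr.1, hr.2⟩

theorem P4_pos (J q : ℕ) : 0 < bp J q := by
  unfold bp
  refine prod_pos fun p hp => ?_
  rw [mem_filter] at hp
  exact pow_pos (Nat.prime_of_mem_primeFactors hp.1).pos _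

theorem P4_prod {j q : ℕ} (hq : 1 ≤ q) (h : ∀ p : ℕ, p.Prime → p ∣ q → Nat.log 2 p < j) :
    ∏ J ∈ range j, bp J q = q := by
  unfold bp
  have h1 := Finset.prod_fiberwise_of_maps_to (s := q.primeFactors) (t := range j) (g := Nat.log 2)
    (fun p hp => mem_range.2 (h p (Nat.prime_of_mem_primeFactors hp) (Nat.dvd_of_mem_primeFactors hp)))
    (fun p => p ^ q.factorization p)
  rw [h1]
  exact Nat.prod_factorization_pow_eq_self (by omega)

theorem P4_term {j q : ℕ} (hq : 1 ≤ q) (h : ∀ p : ℕ, p.Prime → p ∣ q → Nat.log 2 p < j) :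
    (1 : ℝ) / q * (∏ J ∈ Sg j q, (4 / J : ℝ)) ^ (7 / 8 : ℝ) = ∏ J ∈ range j, P4_G J (bp J q) := by
  unfold P4_G
  rw [Finset.prod_mul_distrib]
  have h1 : ∏ J ∈ range j, (1 : ℝ) / (bp J q : ℝ) = 1 / q := by
    rw [Finset.prod_div_distrib, Finset.prod_const_one, ← Nat.cast_prod, P4_prod hq h]
  have h2 : ∏ J ∈ range j, (if (bp J q).Prime then (4 / J : ℝ) ^ (7 / 8 : ℝ) else 1) =
      (∏ J ∈ Sg j q, (4 / J : ℝ)) ^ (7 / 8 : ℝ) := by
    rw [← Finset.prod_filter, ← Real.finsetProd_rpow _ _ (fun i _ => by positivity)]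
    rfl
  rw [h1, h2]

theorem P4_num (J : ℕ) (hJ : 1 ≤ J) :
    1 + (4 / J : ℝ) ^ (7 / 8 : ℝ) * (4 / J) + 32 / (J : ℝ) ^ 2 ≤ Real.exp (48 * (1 / (J : ℝ) ^ (15 / 8 : ℝ))) := by
  have hJ0 : (0 : ℝ) < J := by exact_mod_cast hJ
  have hJ1 : (1 : ℝ) ≤ J := by exact_mod_cast hJ
  have h4 : (0 : ℝ) < 4 / J := by positivity
  have e1 : (4 / J : ℝ) ^ (7 / 8 : ℝ) * (4 / J) = (4 / J : ℝ) ^ (15 / 8 : ℝ) := by
    have := Real.rpow_add h4 (7 / 8) 1
    rw [Real.rpow_one] at this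
    rw [← this]
    norm_num
  have e2 : (4 / J : ℝ) ^ (15 / 8 : ℝ) ≤ 16 * (1 / (J : ℝ) ^ (15 / 8 : ℝ)) := by
    rw [Real.div_rpow (by norm_num) hJ0.le, div_eq_mul_one_div]
    refine mul_le_mul_of_nonneg_right ?_ (by positivity)
    have h5 : (4 : ℝ) ^ (15 / 8 : ℝ) ≤ 4 ^ (2 : ℝ) := Real.rpow_le_rpow_of_exponent_le (by norm_num) (by norm_num)
    have h6 : (4 : ℝ) ^ (2 : ℝ) = 16 := by norm_num
    linarith
  have e3 : 32 / (J : ℝ) ^ 2 ≤ 32 * (1 / (J : ℝ) ^ (15 / 8 : ℝ)) := by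
    rw [div_eq_mul_one_div]
    refine mul_le_mul_of_nonneg_left ?_ (by norm_num)
    refine one_div_le_one_div_of_le (by positivity) ?_
    have h7 : (J : ℝ) ^ (15 / 8 : ℝ) ≤ (J : ℝ) ^ (2 : ℝ) := Real.rpow_le_rpow_of_exponent_le hJ1 (by norm_num)
    have h8 : (J : ℝ) ^ (2 : ℝ) = (J : ℝ) ^ 2 := Real.rpow_two _
    exact h7.trans h8.le
  have e4 := Real.add_one_le_exp (48 * (1 / (J : ℝ) ^ (15 / 8 : ℝ)))
  rw [e1]
  linarith

theorem P4_block (hP1 : P1_stmt) (hP3 : P3_stmt) {y J : ℕ} (hy : 1024 ≤ y) (Q : Finset ℕ)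
    (hQ : ∀ q ∈ Q, 1 ≤ q ∧ Rgh y q) :
    ∑ m ∈ insert 1 (Q.image (bp J)), P4_G J m ≤ Real.exp (48 * (1 / (J : ℝ) ^ (15 / 8 : ℝ))) := by
  have hG1 : P4_G J 1 = 1 := by
    unfold P4_G
    rw [if_neg Nat.not_prime_one]
    norm_num
  by_cases hJ : 2 ^ (J + 1) ≤ y
  · have h1 : insert 1 (Q.image (bp J)) = {1} := by
      apply Finset.eq_singleton_iff_unique_mem.2
      refine ⟨mem_insert_self _ _, fun m hm => ?_⟩
      rcases mem_insert.1 hm with h | h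
      · exact h
      · obtain ⟨q, hq, rfl⟩ := mem_image.1 h
        by_contra hne
        obtain ⟨p, hp, hpd⟩ := Nat.exists_prime_and_dvd hne
        obtain ⟨h2, h3⟩ := P4_dvd hp hpd
        have h4 := (hQ q hq).2 p hp h2
        have h5 := Nat.lt_pow_succ_log_self (b := 2) (by norm_num) p
        rw [h3] at h5
        omega
    rw [h1, sum_singleton, hG1]
    refine Real.one_le_exp (by positivity)
  · have hJ10 : 10 ≤ J := by
      by_contra h
      apply hJ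
      have h2 : 2 ^ (J + 1) ≤ 2 ^ 10 := Nat.pow_le_pow_right (by norm_num) (by omega)
      have h3 : 2 ^ 10 = 1024 := by norm_num
      omega
    have hJ0 : (0 : ℝ) < J := by
      have : 0 < J := by omega
      exact_mod_cast this
    set T := insert 1 (Q.image (bp J)) with hT
    set M := T.erase 1 with hM
    have hMm : ∀ m ∈ M, 1 < m ∧ ∀ p : ℕ, p.Prime → p ∣ m → Nat.log 2 p = J ∧ y < p := by
      intro m hm
      rw [hM, mem_erase, hT, mem_insert] at hm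
      obtain ⟨h1, h2⟩ := hm
      have h2' := h2.resolve_left h1
      obtain ⟨q, hq, rfl⟩ := mem_image.1 h2'
      have h3 := P4_pos J q
      refine ⟨by omega, fun p hp hpd => ?_⟩
      obtain ⟨h4, h5⟩ := P4_dvd hp hpd
      exact ⟨h5, (hQ q hq).2 p hp h4⟩
    have h3 := (hP3 J M (by omega) (fun m hm => ⟨(hMm m hm).1, fun p hp hd => ((hMm m hm).2 p hp hd).1⟩)).2
    have h1 : ∑ m ∈ M.filter (fun m => m.Prime), (1 : ℝ) / m ≤ 4 / J := by
      refine le_trans ?_ (hP1 y J (by omega))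
      refine sum_le_sum_of_subset_of_nonneg ?_ (fun i _ _ => by positivity)
      intro m hm
      rw [mem_filter] at hm
      obtain ⟨h5, h6⟩ := (hMm m hm.1).2 m hm.2 dvd_rfl
      unfold pb
      rw [mem_filter, mem_Ico]
      have h7 := Nat.lt_pow_succ_log_self (b := 2) (by norm_num) m
      have h8 := Nat.pow_log_le_self 2 hm.2.ne_zero
      rw [h5] at h7 h8
      exact ⟨⟨h8, h7⟩, hm.2, h6⟩
    have h4 : ∑ m ∈ T, P4_G J m = 1 + ∑ m ∈ M, P4_G J m := by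
      rw [hM, ← Finset.add_sum_erase T (P4_G J) (mem_insert_self _ _), hG1]
    have h5 : ∑ m ∈ M, P4_G J m = (4 / J : ℝ) ^ (7 / 8 : ℝ) * ∑ m ∈ M.filter (fun m => m.Prime), (1 : ℝ) / m +
        ∑ m ∈ M.filter (fun m => ¬ m.Prime), (1 : ℝ) / m := by
      rw [← Finset.sum_filter_add_sum_filter_not M (fun m => m.Prime), mul_sum]
      refine congrArg₂ (· + ·) ?_ ?_
      · refine sum_congr rfl fun m hm => ?_
        unfold P4_G
        rw [if_pos (mem_filter.1 hm).2, mul_comm]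
      · refine sum_congr rfl fun m hm => ?_
        unfold P4_G
        rw [if_neg (mem_filter.1 hm).2, mul_one]
    have h6 : (4 / J : ℝ) ^ (7 / 8 : ℝ) * ∑ m ∈ M.filter (fun m => m.Prime), (1 : ℝ) / m ≤
        (4 / J : ℝ) ^ (7 / 8 : ℝ) * (4 / J) := mul_le_mul_of_nonneg_left h1 (by positivity)
    have h7 := P4_num J (by omega)
    rw [h4, h5]
    linarith

theorem P4 (hP1 : P1_stmt) (hP3 : P3_stmt) : P4_stmt := by
  have hsum : Summable (fun n : ℕ => 1 / (n : ℝ) ^ (15 / 8 : ℝ)) := Real.summable_one_div_nat_rpow.2 (by norm_num)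
  have hts : 0 ≤ ∑' n : ℕ, 1 / (n : ℝ) ^ (15 / 8 : ℝ) := tsum_nonneg fun n => by positivity
  refine ⟨Real.exp (48 * ∑' n : ℕ, 1 / (n : ℝ) ^ (15 / 8 : ℝ)), 1024, Real.one_le_exp (by positivity), ?_⟩
  intro y j hy Q hQ
  have h1 : ∑ q ∈ Q, (1 : ℝ) / q * (∏ J ∈ Sg j q, (4 / J : ℝ)) ^ (7 / 8 : ℝ) =
      ∑ q ∈ Q, ∏ x ∈ (range j).attach, P4_G x.1 (bp x.1 q) := by
    refine sum_congr rfl fun q hq => ?_
    rw [P4_term (hQ q hq).1 (hQ q hq).2.2, Finset.prod_attach (range j) (fun J => P4_G J (bp J q))]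
  rw [h1]
  let φ : ℕ → (∀ a ∈ range j, ℕ) := fun q a _ => bp a q
  have hinj : Set.InjOn φ Q := by
    intro q hq q' hq' h
    have h2 : ∀ J ∈ range j, bp J q = bp J q' := fun J hJ => congrFun (congrFun h J) hJ
    rw [← P4_prod (hQ q hq).1 (hQ q hq).2.2, ← P4_prod (hQ q' hq').1 (hQ q' hq').2.2]
    exact prod_congr rfl h2
  have h3 : ∑ q ∈ Q, ∏ x ∈ (range j).attach, P4_G x.1 (bp x.1 q) ≤
      ∏ J ∈ range j, ∑ m ∈ insert 1 (Q.image (bp J)), P4_G J m := by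
    rw [Finset.prod_sum]
    have h4 : ∑ q ∈ Q, ∏ x ∈ (range j).attach, P4_G x.1 (bp x.1 q) =
        ∑ f ∈ Q.image φ, ∏ x ∈ (range j).attach, P4_G x.1 (f x.1 x.2) := by
      rw [Finset.sum_image hinj]
    rw [h4]
    refine sum_le_sum_of_subset_of_nonneg ?_ (fun f _ _ => prod_nonneg fun x _ => P4_G_nonneg _ _)
    intro f hf
    obtain ⟨q, hq, rfl⟩ := mem_image.1 hf
    rw [mem_pi]
    intro a ha
    exact mem_insert_of_mem (mem_image_of_mem _ hq)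
  refine h3.trans ?_
  calc ∏ J ∈ range j, ∑ m ∈ insert 1 (Q.image (bp J)), P4_G J m
      ≤ ∏ J ∈ range j, Real.exp (48 * (1 / (J : ℝ) ^ (15 / 8 : ℝ))) :=
        prod_le_prod (fun J _ => sum_nonneg fun m _ => P4_G_nonneg _ _)
          (fun J _ => P4_block hP1 hP3 hy Q fun q hq => ⟨(hQ q hq).1, (hQ q hq).2.1⟩)
    _ = Real.exp (48 * ∑ J ∈ range j, 1 / (J : ℝ) ^ (15 / 8 : ℝ)) := by
        rw [← Real.exp_sum, mul_sum]
    _ ≤ Real.exp (48 * ∑' n : ℕ, 1 / (n : ℝ) ^ (15 / 8 : ℝ)) := by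
        refine Real.exp_le_exp.2 (mul_le_mul_of_nonneg_left ?_ (by norm_num))
        exact hsum.sum_le_tsum _ fun n _ => by positivity

end Pool.Agent.T6
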