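import Pool.Agent.helper8.T6.SpecC2

set_option autoImplicit false

/-!
# T6, block C: row TGM
-/

namespace Pool.Agent.T6

open Finset Pool.Agent.T5

theorem TGM_one (t : Tpl) : InC 1 1 ⟨0, 0, 0, 0, 0, 0, 0⟩ t := by
  have h1 : e1 1 t.1.1 = 1 := by
    unfold e1
    rw [Nat.primeFactors_one, Finset.filter_empty, Finset.prod_empty]
  have h2 : e2 1 t.1.1 = 1 := by
    unfold e2
    rw [Nat.primeFactors_one, Finset.filter_empty, Finset.prod_empty]
  refine ⟨?_, ?_, ?_, ?_, ?_⟩
  · rw [mul_one, Nat.cast_one]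
    exact one_dvd _
  · rw [mul_one, Nat.cast_one]
    exact one_dvd _
  · rw [h1, Nat.cast_one]
    exact one_dvd _
  · rw [h2, Nat.cast_one]
    exact one_dvd _
  · rw [Nat.cast_one, one_pow]
    exact one_dvd _

theorem TGM (hTGL : TGL_stmt) : TGM_stmt := by
  classical
  intro T f h n k L hp hf
  induction T using Finset.induction_on with
  | empty =>
    refine ⟨{⟨0, 0, 0, 0, 0, 0, 0⟩}, ?_, ?_⟩
    · rw [card_singleton, prod_empty]
    · intro t _ _
      refine ⟨_, mem_singleton_self _, ?_⟩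
      rw [prod_empty, prod_empty]
      exact TGM_one t
  | insert p T hpT ih =>
    obtain ⟨M', hM', hM'2⟩ := ih (fun q hq => hp q (mem_insert_of_mem hq)) (fun q hq => hf q (mem_insert_of_mem hq))
    have hpp := hp p (mem_insert_self _ _)
    obtain ⟨h1, h2, j, h3⟩ := hf p (mem_insert_self _ _)
    have hf1 : 1 ≤ ∏ q ∈ T, f q := Nat.one_le_iff_ne_zero.2 (Finset.prod_ne_zero_iff.2 fun q hq => by
      have := (hf q (mem_insert_of_mem hq)).1
      omega)
    have hh1 : 1 ≤ ∏ q ∈ T, h q := Nat.one_le_iff_ne_zero.2 (Finset.prod_ne_zero_iff.2 fun q hq => by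
      have := (hf q (mem_insert_of_mem hq)).2.1
      omega)
    have hco : Nat.Coprime (f p * h p) ((∏ q ∈ T, f q) * ∏ q ∈ T, h q) := by
      rw [← Finset.prod_mul_distrib]
      refine Nat.Coprime.prod_right fun q hq => ?_
      obtain ⟨-, -, i, h4⟩ := hf q (mem_insert_of_mem hq)
      have hqp := hp q (mem_insert_of_mem hq)
      have hne : p ≠ q := by
        rintro rfl
        exact hpT hq
      exact Nat.Coprime.coprime_dvd_left h3 (Nat.Coprime.coprime_dvd_right h4 (Nat.coprime_pow_primes j i hpp hqp hne))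
    obtain ⟨M, hM, hM2⟩ := hTGL (f p) (h p) (∏ q ∈ T, f q) (∏ q ∈ T, h q) n k (L p) M' h1 h2 hf1 hh1 hco
    refine ⟨M, ?_, ?_⟩
    · rw [prod_insert hpT]
      exact hM.trans (Nat.mul_le_mul_left _ hM')
    · intro t ht hx
      rw [prod_insert hpT, prod_insert hpT]
      exact hM2 t ht (hx p (mem_insert_self _ _)) (hM'2 t ht fun q hq => hx q (mem_insert_of_mem hq))

end Pool.Agent.T6
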