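import Pool.Agent.helper8.T6.SpecC1

set_option autoImplicit false

/-!
# T6, block C: row TSN
-/

namespace Pool.Agent.T6

open Finset Pool.Agent.T5

theorem TSN_roots (p : ℕ) [Fact p.Prime] (f : Polynomial (ZMod p)) (hf : f ≠ 0) (d : ℕ) (hd : f.natDegree ≤ d) :
    ((range p).filter (fun R : ℕ => f.eval (R : ZMod p) = 0)).card ≤ d := by
  classical
  have h1 : ((range p).filter (fun R : ℕ => f.eval (R : ZMod p) = 0)).card ≤ f.roots.toFinset.card := by
    apply Finset.card_le_card_of_injOn (fun R : ℕ => (R : ZMod p))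
    · intro R hR
      have hR' := (mem_filter.1 (mem_coe.1 hR)).2
      exact mem_coe.2 (Multiset.mem_toFinset.2 ((Polynomial.mem_roots hf).2 hR'))
    · intro R hR R' hR' h
      have h1 := mem_range.1 (mem_filter.1 (mem_coe.1 hR)).1
      have h2 := mem_range.1 (mem_filter.1 (mem_coe.1 hR')).1
      have h3 := congrArg ZMod.val h
      simp only at h3
      rw [ZMod.val_natCast_of_lt h1, ZMod.val_natCast_of_lt h2] at h3
      exact h3
  exact h1.trans ((Multiset.toFinset_card_le _).trans ((Polynomial.card_roots' f).trans hd))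

theorem TSN_cubic {p : ℕ} (hp : p.Prime) (c3 c2 c1 c0 : ℤ) (h3 : ¬ (p : ℤ) ∣ c3) :
    ((range p).filter (fun R : ℕ => (p : ℤ) ∣ c3 * R ^ 3 + c2 * R ^ 2 + c1 * R + c0)).card ≤ 3 := by
  have hF : Fact p.Prime := ⟨hp⟩
  let f : Polynomial (ZMod p) := Polynomial.C (c3 : ZMod p) * Polynomial.X ^ 3 + Polynomial.C (c2 : ZMod p) * Polynomial.X ^ 2 +
    Polynomial.C (c1 : ZMod p) * Polynomial.X + Polynomial.C (c0 : ZMod p)
  have hc : (c3 : ZMod p) ≠ 0 := fun h => h3 ((ZMod.intCast_zmod_eq_zero_iff_dvd c3 p).1 h)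
  have hf : f ≠ 0 := Polynomial.ne_zero_of_natDegree_gt (n := 2) (by
    rw [Polynomial.natDegree_cubic hc]; norm_num)
  have hd : f.natDegree ≤ 3 := Polynomial.natDegree_cubic_le
  refine le_trans (le_of_eq ?_) (TSN_roots p f hf 3 hd)
  refine congrArg Finset.card (Finset.filter_congr fun R _ => ?_)
  rw [← ZMod.intCast_zmod_eq_zero_iff_dvd]
  simp only [f, Polynomial.eval_add, Polynomial.eval_mul, Polynomial.eval_C, Polynomial.eval_pow, Polynomial.eval_X]
  push_cast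
  exact Iff.rfl

theorem TSN_quad {p : ℕ} (hp : p.Prime) (c2 c1 c0 : ℤ) (h3 : ¬ (p : ℤ) ∣ c2) :
    ((range p).filter (fun R : ℕ => (p : ℤ) ∣ c2 * R ^ 2 + c1 * R + c0)).card ≤ 2 := by
  have hF : Fact p.Prime := ⟨hp⟩
  let f : Polynomial (ZMod p) := Polynomial.C (c2 : ZMod p) * Polynomial.X ^ 2 +
    Polynomial.C (c1 : ZMod p) * Polynomial.X + Polynomial.C (c0 : ZMod p)
  have hc : (c2 : ZMod p) ≠ 0 := fun h => h3 ((ZMod.intCast_zmod_eq_zero_iff_dvd c2 p).1 h)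
  have hf : f ≠ 0 := Polynomial.ne_zero_of_natDegree_gt (n := 1) (by
    rw [Polynomial.natDegree_quadratic hc]; norm_num)
  have hd : f.natDegree ≤ 2 := Polynomial.natDegree_quadratic_le
  refine le_trans (le_of_eq ?_) (TSN_roots p f hf 2 hd)
  refine congrArg Finset.card (Finset.filter_congr fun R _ => ?_)
  rw [← ZMod.intCast_zmod_eq_zero_iff_dvd]
  simp only [f, Polynomial.eval_add, Polynomial.eval_mul, Polynomial.eval_C, Polynomial.eval_pow, Polynomial.eval_X]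
  push_cast
  exact Iff.rfl

theorem TSN_fib {p : ℕ} (hp : p.Prime) (h2 : p ≠ 2) (n k : ℤ) (hk : ¬ (p : ℤ) ∣ k) (m g : ℕ) :
    ((range p).filter (fun R : ℕ => (p : ℤ) ∣ Pk n k m g R)).card ≤ 3 := by
  have hp' := Nat.prime_iff_prime_int.1 hp
  have h3 : ¬ (p : ℤ) ∣ -4 * k ^ 5 := by
    intro h
    rcases hp'.dvd_or_dvd h with h4 | h4
    · have h5 : (p : ℤ) ∣ 2 * 2 := by
        have : (-4 : ℤ) = -(2 * 2) := by norm_num
        rw [this, dvd_neg] at h4
        exact h4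
      have h6 : (p : ℤ) ∣ 2 := by
        rcases hp'.dvd_or_dvd h5 with h | h <;> exact h
      have h7 : p ∣ 2 := by exact_mod_cast h6
      exact h2 ((Nat.prime_dvd_prime_iff_eq hp Nat.prime_two).1 h7)
    · exact hk (hp'.dvd_of_dvd_pow h4)
  refine le_trans (le_of_eq ?_) (TSN_cubic hp (-4 * k ^ 5) (n ^ 4 * g ^ 2 - 6 * n ^ 2 * k ^ 2 * m * g - 11 * k ^ 4 * m ^ 2)
    (-10 * k * m ^ 3 * (n ^ 2 * g + k ^ 2 * m)) (-(m : ℤ) ^ 5 * (4 * n ^ 2 * g + 3 * k ^ 2 * m)) h3)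
  refine congrArg Finset.card (Finset.filter_congr fun R _ => ?_)
  have e : Pk n k m g R = -4 * k ^ 5 * (R : ℤ) ^ 3 + (n ^ 4 * g ^ 2 - 6 * n ^ 2 * k ^ 2 * m * g - 11 * k ^ 4 * m ^ 2) * (R : ℤ) ^ 2 +
      (-10 * k * m ^ 3 * (n ^ 2 * g + k ^ 2 * m)) * (R : ℤ) + (-(m : ℤ) ^ 5 * (4 * n ^ 2 * g + 3 * k ^ 2 * m)) := by
    unfold Pk
    ring
  rw [e]

/-- counting triples over pairs -/
theorem TSN_cnt {p : ℕ} (hp : p.Prime) (h2 : p ≠ 2) (n k : ℤ) (hk : ¬ (p : ℤ) ∣ k) (S : Finset (ℕ × ℕ × ℕ)) (B : Finset (ℕ × ℕ))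
    (hS : ∀ x ∈ S, x ∈ cub p ∧ (p : ℤ) ∣ Pk n k x.1 x.2.1 x.2.2 ∧ (x.1, x.2.1) ∈ B) : S.card ≤ 3 * B.card := by
  classical
  refine le_trans (Finset.card_le_mul_card_image (f := fun x : ℕ × ℕ × ℕ => (x.1, x.2.1)) S 3 ?_)
    (Nat.mul_le_mul_left 3 (Finset.card_le_card ?_))
  · rintro ⟨m, g⟩ _
    refine le_trans (Finset.card_le_card_of_injOn (fun x : ℕ × ℕ × ℕ => x.2.2) ?_ ?_) (TSN_fib hp h2 n k hk m g)
    · rintro ⟨m', g', R⟩ hx
      have hx' := mem_filter.1 (mem_coe.1 hx)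
      have h3 := hS _ hx'.1
      have h4 := hx'.2
      simp only [Prod.mk.injEq] at h4
      obtain ⟨rfl, rfl⟩ := h4
      have h5 := h3.1
      unfold cub at h5
      rw [mem_product, mem_product] at h5
      exact mem_coe.2 (mem_filter.2 ⟨h5.2.2, h3.2.1⟩)
    · rintro ⟨m', g', R⟩ hx ⟨m'', g'', R'⟩ hy h
      have hx' := (mem_filter.1 (mem_coe.1 hx)).2
      have hy' := (mem_filter.1 (mem_coe.1 hy)).2
      simp only [Prod.mk.injEq] at hx' hy'
      obtain ⟨rfl, rfl⟩ := hx'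
      obtain ⟨rfl, rfl⟩ := hy'
      simp only at h
      rw [h]
  · intro y hy
    obtain ⟨x, hx, rfl⟩ := mem_image.1 hy
    exact (hS x hx).2.2

theorem TSN (hTDL : TDL_stmt) : TSN_stmt := by
  classical
  intro p n k hp h2 hn hk
  have hp' := Nat.prime_iff_prime_int.1 hp
  constructor
  · refine (TSN_cnt hp h2 n k hk _ (range p ×ˢ range p) ?_).trans ?_
    · intro x hx
      rw [mem_filter] at hx
      refine ⟨hx.1, hx.2, ?_⟩
      have h5 := hx.1
      unfold cub at h5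
      rw [mem_product, mem_product] at h5
      exact mem_product.2 ⟨h5.1, h5.2.1⟩
    · rw [card_product, card_range, pow_two]
  · let B3 : Finset (ℕ × ℕ) := (range p ×ˢ range p).filter
      (fun x => (p : ℤ) ∣ n ^ 4 * (x.2 : ℤ) ^ 2 - 11 * n ^ 2 * k ^ 2 * x.1 * x.2 - k ^ 4 * (x.1 : ℤ) ^ 2)
    have hB3 : B3.card ≤ 2 * p := by
      refine le_trans (Finset.card_le_mul_card_image (f := fun x : ℕ × ℕ => x.1) B3 2 ?_)
        (Nat.mul_le_mul_left 2 ?_)
      · intro m _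
        have hn4 : ¬ (p : ℤ) ∣ n ^ 4 := fun h => hn (hp'.dvd_of_dvd_pow h)
        refine le_trans (Finset.card_le_card_of_injOn (fun x : ℕ × ℕ => x.2) ?_ ?_)
          (TSN_quad hp (n ^ 4) (-(11 * n ^ 2 * k ^ 2 * m)) (-(k ^ 4 * (m : ℤ) ^ 2)) hn4)
        · rintro ⟨m', g⟩ hx
          obtain ⟨h3, h4⟩ := mem_filter.1 (mem_coe.1 hx)
          simp only at h4
          subst h4
          obtain ⟨h5, h6⟩ := mem_filter.1 h3
          rw [mem_product] at h5
          refine mem_coe.2 (mem_filter.2 ⟨h5.2, ?_⟩)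
          have e : n ^ 4 * (g : ℤ) ^ 2 + (-(11 * n ^ 2 * k ^ 2 * (m' : ℤ))) * g + (-(k ^ 4 * (m' : ℤ) ^ 2)) =
              n ^ 4 * (g : ℤ) ^ 2 - 11 * n ^ 2 * k ^ 2 * m' * g - k ^ 4 * (m' : ℤ) ^ 2 := by ring
          rw [e]
          exact h6
        · rintro ⟨m', g⟩ hx ⟨m'', g'⟩ hy h
          have hx' := (mem_filter.1 (mem_coe.1 hx)).2
          have hy' := (mem_filter.1 (mem_coe.1 hy)).2
          simp only at hx' hy' h
          rw [hx', hy', h]
      · have h3 : B3.image (fun x : ℕ × ℕ => x.1) ⊆ range p := by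
          intro y hy
          obtain ⟨x, hx, rfl⟩ := mem_image.1 hy
          exact (mem_product.1 (mem_filter.1 hx).1).1
        have h4 := Finset.card_le_card h3
        rwa [card_range] at h4
    have hB : (({0} : Finset ℕ) ×ˢ range p ∪ range p ×ˢ ({0} : Finset ℕ) ∪ B3).card ≤ 4 * p := by
      have h3 := Finset.card_union_le (({0} : Finset ℕ) ×ˢ range p ∪ range p ×ˢ ({0} : Finset ℕ)) B3
      have h4 := Finset.card_union_le (({0} : Finset ℕ) ×ˢ range p) (range p ×ˢ ({0} : Finset ℕ))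
      rw [card_product, card_product, card_singleton, card_range] at h4
      omega
    have hz : ∀ x : ℕ, x < p → (p : ℤ) ∣ (x : ℤ) → x = 0 := by
      intro x hx hd
      have h3 : p ∣ x := by exact_mod_cast hd
      exact Nat.eq_zero_of_dvd_of_lt h3 hx
    refine (TSN_cnt hp h2 n k hk _ (({0} : Finset ℕ) ×ˢ range p ∪ range p ×ˢ ({0} : Finset ℕ) ∪ B3) ?_).trans ?_
    · intro x hx
      rw [mem_filter] at hx
      refine ⟨hx.1, hx.2.1, ?_⟩
      have h5 := hx.1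
      unfold cub at h5
      rw [mem_product, mem_product] at h5
      obtain ⟨h6, h7, -⟩ := h5
      rw [mem_union, mem_union]
      rcases hTDL p n k x.1 x.2.1 x.2.2 hp h2 hn hx.2.1 hx.2.2 with h | h | h
      · left; left
        exact mem_product.2 ⟨mem_singleton.2 (hz _ (mem_range.1 h6) h), h7⟩
      · left; right
        exact mem_product.2 ⟨h6, mem_singleton.2 (hz _ (mem_range.1 h7) h)⟩
      · right
        exact mem_filter.2 ⟨mem_product.2 ⟨h6, h7⟩, h⟩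
    · omega

end Pool.Agent.T6
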